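import Pool.Agent.X141.LoopTree

/-!
# MP_74bc7f_pr, Q1: yes, the linear order is attained.

For `d ≥ 3` and `r ∈ (0,1]` there is an infinite `d`-regular unimodular random graph of loop
density at least `r` and spectral radius at most `2 √(d-1) / d + 2 (d-1) r`.
-/

set_option autoImplicit false
set_option linter.unusedSectionVars false

namespace Pool.Agent.Results.MP_74bc7f_pr.LinearLoopDensity

open scoped ENNReal
open Filter

/-- A multigraph on `V`, given by symmetric multiplicities; `a x x` is the number of loops at `x`,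
each loop counting once towards the degree. -/
structure MGraph (V : Type) where
  /-- the multiplicities -/
  a : V → V → ℕ
  /-- symmetry -/
  symm : ∀ x y, a x y = a y x

namespace MGraph

variable {V : Type} (G : MGraph V)

/-- every vertex has degree `d` -/
def Regular (d : ℕ) : Prop := ∀ x, ∑' y, (G.a x y : ℝ≥0∞) = d

/-- any two vertices are joined by a path -/
def Connected : Prop := ∀ x y, Relation.ReflTransGen (fun u v => 0 < G.a u v) x y

open Classical in
/-- `n`-step transition probabilities of the simple random walk on a `d`-regular graph -/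
noncomputable def step (d : ℕ) : ℕ → V → V → ℝ≥0∞
  | 0, x, y => if x = y then 1 else 0
  | n + 1, x, y => ∑' z, (G.a x z : ℝ≥0∞) / d * step d n z y

/-- `limsup p_{2n}(o,o)^{1/(2n)}` -/
noncomputable def rho (d : ℕ) (o : V) : ℝ≥0∞ :=
  limsup (fun n : ℕ => G.step d (2 * n) o o ^ (((2 * n : ℕ) : ℝ)⁻¹)) atTop

/-- graph automorphisms -/
def IsAut (φ : V ≃ V) : Prop := ∀ x y, G.a (φ x) (φ y) = G.a x y

/-- The random rooted graph `(G, o)`, with `G` fixed and `o` of law `p`, is unimodular: the mass
transport principle holds for every `f(G, o, x) ∈ [0,∞]`, that is (`G` being fixed) for every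
function on `V × V` invariant under the automorphisms of `G`. -/
def Unimodular (p : PMF V) : Prop :=
  ∀ f : V → V → ℝ≥0∞, (∀ φ : V ≃ V, G.IsAut φ → ∀ x y, f (φ x) (φ y) = f x y) →
    ∑' o, p o * ∑' x, f o x = ∑' o, p o * ∑' x, f x o

/-- the probability that the root, of law `p`, carries a loop -/
noncomputable def loopDensity (p : PMF V) : ℝ≥0∞ := p.toOuterMeasure {o | 1 ≤ G.a o o}

end MGraph

open X141.LT

section lemmas

variable {q R : ℕ}

open Classical in
/-- the graph -/
noncomputable def graph (q R : ℕ) : MGraph (Vx q R) where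
  a x y := (Finset.univ.filter (fun o => nbr x o = y)).card
  symm x y := by
    refine Finset.card_bij' (fun o _ => rev x o) (fun o _ => rev y o) ?_ ?_ ?_ ?_
    · intro o ho
      simp only [Finset.mem_filter, Finset.mem_univ, true_and] at ho ⊢
      rw [← ho, nbr_rev]
    · intro o ho
      simp only [Finset.mem_filter, Finset.mem_univ, true_and] at ho ⊢
      rw [← ho, nbr_rev]
    · intro o ho
      simp only [Finset.mem_filter, Finset.mem_univ, true_and] at ho
      rw [← ho, rev_rev]
    · intro o ho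
      simp only [Finset.mem_filter, Finset.mem_univ, true_and] at ho
      rw [← ho, rev_rev]

lemma a_pos {x y : Vx q R} (h : rel x y) : 0 < (graph q R).a x y := by
  obtain ⟨o, ho⟩ := h
  classical
  change 0 < (Finset.univ.filter (fun o => nbr x o = y)).card
  rw [Finset.card_pos]
  exact ⟨o, by simp [ho]⟩

/-- weighted sums over the neighbours -/
lemma tsum_a (x : Vx q R) (H : Vx q R → ℝ≥0∞) :
    ∑' y, ((graph q R).a x y : ℝ≥0∞) * H y = ∑ o, H (nbr x o) := by
  classical
  have h1 : ∀ y, ((graph q R).a x y : ℝ≥0∞) * H y = ∑ o, if nbr x o = y then H y else 0 := by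
    intro y
    change (((Finset.univ.filter (fun o => nbr x o = y)).card : ℕ) : ℝ≥0∞) * H y = _
    rw [← Finset.sum_filter, Finset.sum_const, nsmul_eq_mul]
  rw [tsum_congr h1, Summable.tsum_finsetSum (fun o _ => ENNReal.summable)]
  apply Finset.sum_congr rfl
  intro o _
  rw [tsum_eq_single (nbr x o)]
  · simp
  · intro y hy
    rw [if_neg (fun h => hy h.symm)]

lemma regular : (graph q R).Regular (q + 1) := by
  intro x
  have := tsum_a x (fun _ => 1)
  simp only [mul_one] at this
  rw [this]
  simp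

lemma connected : (graph q R).Connected := by
  intro x y
  have h := reach x y
  induction h with
  | refl => exact Relation.ReflTransGen.refl
  | tail _ h ih => exact ih.tail (a_pos h)

lemma isAut (g : Gam q R) : (graph q R).IsAut (rmul g) := by
  classical
  intro x y
  change (Finset.univ.filter (fun o => nbr (rmul g x) o = rmul g y)).card =
    (Finset.univ.filter (fun o => nbr x o = y)).card
  congr 1
  ext o
  simp only [Finset.mem_filter, Finset.mem_univ, true_and]
  rw [nbr_rmul, Equiv.apply_eq_iff_eq]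

noncomputable instance : Nonempty (Fv q R) := ⟨⟨[], Nat.zero_le _⟩⟩

/-- the law of the root: uniform on one copy of the finite tree -/
noncomputable def law (q R : ℕ) : PMF (Vx q R) :=
  (PMF.uniformOfFintype (Fv q R)).map (fun w => (1, w))

lemma tsum_law (F : Vx q R → ℝ≥0∞) :
    ∑' o, law q R o * F o = (Fintype.card (Fv q R) : ℝ≥0∞)⁻¹ * ∑ w : Fv q R, F (1, w) := by
  classical
  unfold law
  simp only [PMF.map_apply, ← ENNReal.tsum_mul_right]
  rw [ENNReal.tsum_comm, tsum_fintype, Finset.mul_sum]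
  apply Finset.sum_congr rfl
  intro w _
  rw [tsum_eq_single ((1, w) : Vx q R)]
  · simp
  · intro b hb
    rw [if_neg hb, zero_mul]

lemma unimodular : (graph q R).Unimodular (law q R) := by
  intro f hf
  rw [tsum_law, tsum_law]
  congr 1
  have h1 : ∀ w : Fv q R, ∑' x, f (1, w) x = ∑ w' : Fv q R, ∑' γ : Gam q R, f (1, w) (γ, w') := by
    intro w
    rw [ENNReal.tsum_prod', ENNReal.tsum_comm, tsum_fintype]
  have h2 : ∀ w : Fv q R, ∑' x, f x (1, w) = ∑ w' : Fv q R, ∑' γ : Gam q R, f (γ, w') (1, w) := by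
    intro w
    rw [ENNReal.tsum_prod', ENNReal.tsum_comm, tsum_fintype]
  rw [Finset.sum_congr rfl (fun w _ => h1 w), Finset.sum_congr rfl (fun w _ => h2 w),
    Finset.sum_comm]
  apply Finset.sum_congr rfl
  intro w _
  apply Finset.sum_congr rfl
  intro w' _
  rw [← Equiv.tsum_eq (Equiv.inv (Gam q R)) (fun γ => f (γ, w') (1, w))]
  apply tsum_congr
  intro γ
  have := hf (rmul γ⁻¹) (isAut γ⁻¹) (1, w') (γ, w)
  simp only [rmul, Equiv.coe_fn_mk, one_mul, mul_inv_cancel] at this
  rw [Equiv.inv_apply]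
  exact this.symm

lemma density : (Fintype.card (Fv q R) : ℝ≥0∞)⁻¹ ≤ (graph q R).loopDensity (law q R) := by
  classical
  unfold MGraph.loopDensity
  rw [PMF.toOuterMeasure_apply]
  have hloop : 1 ≤ (graph q R).a (1, ⟨[], Nat.zero_le _⟩) (1, ⟨[], Nat.zero_le _⟩) := by
    apply a_pos
    exact ⟨none, rfl⟩
  refine le_trans ?_ (ENNReal.le_tsum ((1, ⟨[], Nat.zero_le _⟩) : Vx q R))
  rw [Set.indicator_of_mem (by exact hloop)]
  unfold law
  rw [PMF.map_apply]
  refine le_trans ?_ (ENNReal.le_tsum (⟨[], Nat.zero_le _⟩ : Fv q R))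
  simp

lemma step_le {d : ℕ} (H : Vx q R → ℝ≥0∞) (Λ : ℝ≥0∞)
    (hH : ∀ x, (∑ o, H (nbr x o)) / d ≤ Λ * H x) (n : ℕ) (x : Vx q R) :
    ∑' y, (graph q R).step d n x y * H y ≤ Λ ^ n * H x := by
  classical
  induction n generalizing x with
  | zero =>
    simp only [MGraph.step, pow_zero, one_mul]
    rw [tsum_eq_single x]
    · simp
    · intro y hy
      rw [if_neg (fun h => hy h.symm), zero_mul]
  | succ n ih =>
    simp only [MGraph.step, ← ENNReal.tsum_mul_right]
    rw [ENNReal.tsum_comm]
    calc ∑' z, ∑' y, ((graph q R).a x z : ℝ≥0∞) / d * (graph q R).step d n z y * H y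
        = ∑' z, ((graph q R).a x z : ℝ≥0∞) / d * ∑' y, (graph q R).step d n z y * H y := by
          apply tsum_congr
          intro z
          rw [← ENNReal.tsum_mul_left]
          apply tsum_congr
          intro y
          rw [mul_assoc]
      _ ≤ ∑' z, ((graph q R).a x z : ℝ≥0∞) / d * (Λ ^ n * H z) :=
          ENNReal.tsum_le_tsum (fun z => mul_le_mul' le_rfl (ih z))
      _ = Λ ^ n * ((∑ o, H (nbr x o)) / d) := by
          rw [← tsum_a, ENNReal.div_eq_inv_mul, ← ENNReal.tsum_mul_left, ← ENNReal.tsum_mul_left]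
          apply tsum_congr
          intro z
          rw [ENNReal.div_eq_inv_mul]
          ring
      _ ≤ Λ ^ n * (Λ * H x) := mul_le_mul' le_rfl (hH x)
      _ = _ := by rw [pow_succ]; ring

lemma rho_le {d : ℕ} (H : Vx q R → ℝ≥0∞) (Λ : ℝ≥0∞)
    (h0 : ∀ x, H x ≠ 0) (h1 : ∀ x, H x ≠ ∞)
    (hH : ∀ x, (∑ o, H (nbr x o)) / d ≤ Λ * H x) (o : Vx q R) :
    (graph q R).rho d o ≤ Λ := by
  unfold MGraph.rho
  apply limsup_le_of_le
  · isBoundedDefault
  · filter_upwards [eventually_ge_atTop 1] with n hn
    have h2 : (graph q R).step d (2 * n) o o ≤ Λ ^ (2 * n) := by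
      have h3 := step_le H Λ hH (2 * n) o
      have h4 : (graph q R).step d (2 * n) o o * H o ≤ Λ ^ (2 * n) * H o :=
        (ENNReal.le_tsum o).trans h3
      exact (ENNReal.mul_le_mul_iff_left (h0 o) (h1 o)).1 h4
    calc (graph q R).step d (2 * n) o o ^ (((2 * n : ℕ) : ℝ)⁻¹)
        ≤ (Λ ^ (2 * n)) ^ (((2 * n : ℕ) : ℝ)⁻¹) := by
          apply ENNReal.rpow_le_rpow h2
          positivity
      _ = Λ := ENNReal.pow_rpow_inv_natCast (by omega) Λ

end lemmas

/-- **Main result.** For all `d ≥ 3` and `0 < r ≤ 1` there is an infinite connected `d`-regular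
multigraph with a random root making it unimodular, with loop density at least `r` and spectral
radius at most `2 √(d-1) / d + 2 (d-1) r` (and `2 √(d-1) / d = ρ(T_d)`). -/
theorem result (d : ℕ) (hd : 3 ≤ d) (r : ℝ) (hr0 : 0 < r) (hr1 : r ≤ 1) :
    ∃ (V : Type) (_ : Countable V) (_ : Infinite V) (G : MGraph V) (p : PMF V),
      G.Regular d ∧ G.Connected ∧ G.Unimodular p ∧ ENNReal.ofReal r ≤ G.loopDensity p ∧
      ∀ o, G.rho d o ≤ ENNReal.ofReal (2 * √((d : ℝ) - 1) / d + 2 * ((d : ℝ) - 1) * r) := by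
  obtain ⟨q, rfl⟩ : ∃ q, d = q + 1 := ⟨d - 1, by omega⟩
  have hq : 2 ≤ q := by omega
  have hqr : (2 : ℝ) ≤ q := by exact_mod_cast hq
  have hq1 : (((q + 1 : ℕ) : ℝ)) - 1 = q := by push_cast; ring
  have hsq := sq_pos hq
  have hss := sq_sq (q := q)
  -- graphs for a given R
  have main : ∀ R : ℕ, (r * Fintype.card (Fv q R) ≤ 1) →
      (∀ o, (graph q R).rho (q + 1) o ≤
        ENNReal.ofReal (2 * √(((q + 1 : ℕ) : ℝ) - 1) / ((q + 1 : ℕ) : ℝ) +
          2 * (((q + 1 : ℕ) : ℝ) - 1) * r)) →
      ∃ (V : Type) (_ : Countable V) (_ : Infinite V) (G : MGraph V) (p : PMF V),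
      G.Regular (q + 1) ∧ G.Connected ∧ G.Unimodular p ∧ ENNReal.ofReal r ≤ G.loopDensity p ∧
      ∀ o, G.rho (q + 1) o ≤ ENNReal.ofReal (2 * √(((q + 1 : ℕ) : ℝ) - 1) / ((q + 1 : ℕ) : ℝ) +
          2 * (((q + 1 : ℕ) : ℝ) - 1) * r) := by
    intro R hR1 hR2
    have hleaf : Leaf q R := ⟨List.replicate R ⟨0, by omega⟩, by simp⟩
    have := infinite_Gam hq hleaf
    have := countable_Gam (q := q) (R := R)
    refine ⟨Vx q R, inferInstance, inferInstance, graph q R, law q R, regular, connected,
      unimodular, ?_, hR2⟩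
    refine le_trans ?_ density
    have hc : (0 : ℝ) < Fintype.card (Fv q R) := by
      have : 0 < Fintype.card (Fv q R) := Fintype.card_pos
      exact_mod_cast this
    have h1 : r ≤ (Fintype.card (Fv q R) : ℝ)⁻¹ := by
      rw [← one_div, le_div_iff₀ hc]
      exact hR1
    refine (ENNReal.ofReal_le_ofReal h1).trans (le_of_eq ?_)
    rw [ENNReal.ofReal_inv_of_pos hc, ENNReal.ofReal_natCast]
  -- trivial bound for R = 0
  have triv : 1 ≤ 2 * (q : ℝ) * r + 2 * √(q : ℝ) / (q + 1) →
      (∀ o, (graph q 0).rho (q + 1) o ≤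
        ENNReal.ofReal (2 * √(((q + 1 : ℕ) : ℝ) - 1) / ((q + 1 : ℕ) : ℝ) +
          2 * (((q + 1 : ℕ) : ℝ) - 1) * r)) := by
    intro h o
    have h1 : (graph q 0).rho (q + 1) o ≤ 1 := by
      apply rho_le (fun _ => 1) 1 (by simp) (by simp)
      intro x
      simp only [Finset.sum_const, Finset.card_univ, Fintype.card_option, Fintype.card_fin,
        nsmul_eq_mul, mul_one]
      rw [ENNReal.div_self]
      · simp
      · simp
    refine h1.trans ?_
    rw [← ENNReal.ofReal_one]
    apply ENNReal.ofReal_le_ofReal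
    rw [hq1]
    push_cast
    linarith
  have hcard0 : Fintype.card (Fv q 0) ≤ 1 := by
    rw [Fintype.card_le_one_iff]
    intro a b
    apply Subtype.ext
    have ha := List.eq_nil_of_length_eq_zero (Nat.le_zero.1 a.2)
    have hb := List.eq_nil_of_length_eq_zero (Nat.le_zero.1 b.2)
    rw [ha, hb]
  have hcard0' : r * Fintype.card (Fv q 0) ≤ 1 := by
    have : (Fintype.card (Fv q 0) : ℝ) ≤ 1 := by exact_mod_cast hcard0
    nlinarith
  by_cases hbig : 1 < 2 * (q : ℝ) * r
  · apply main 0 hcard0'
    apply triv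
    have : 0 ≤ 2 * √(q : ℝ) / (q + 1) := by positivity
    linarith
  · push Not at hbig
    -- choose R
    have hex : ∃ R : ℕ, 1 < 2 * (q : ℝ) ^ (R + 1) * r := by
      obtain ⟨n, hn⟩ := pow_unbounded_of_one_lt (1 / (2 * r)) (by linarith : (1 : ℝ) < q)
      refine ⟨n, ?_⟩
      have h1 : 1 / (2 * r) < (q : ℝ) ^ (n + 1) := by
        refine hn.trans_le ?_
        rw [pow_succ]
        have : 0 < (q : ℝ) ^ n := by positivity
        nlinarith
      rw [div_lt_iff₀ (by positivity)] at h1
      linarith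
    classical
    set R := Nat.find hex with hRdef
    have hR1 := Nat.find_spec hex
    have hRpos : 1 ≤ R := by
      by_contra h0
      have h0' : R = 0 := by omega
      rw [← hRdef, h0'] at hR1
      simp only [zero_add, pow_one] at hR1
      linarith
    have hR2 : 2 * (q : ℝ) ^ R * r ≤ 1 := by
      have := Nat.find_min hex (m := R - 1) (by omega)
      push Not at this
      rwa [Nat.sub_add_cancel hRpos] at this
    rw [← hRdef] at hR1
    apply main R
    · have h1 := card_Fv (q := q) (R := R) hq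
      calc r * (Fintype.card (Fv q R) : ℝ) ≤ r * (2 * (q : ℝ) ^ R) :=
            mul_le_mul_of_nonneg_left h1 hr0.le
        _ = 2 * (q : ℝ) ^ R * r := by ring
        _ ≤ 1 := hR2
    · intro o
      let l0 : Leaf q R := ⟨List.replicate R ⟨0, by omega⟩, by simp⟩
      have hkey : (graph q R).rho (q + 1) o ≤ ENNReal.ofReal
          ((2 * √(q : ℝ) + √(q : ℝ) / (2 * (q : ℝ) ^ R)) / (q + 1)) := by
        apply rho_le (fun x => ENNReal.ofReal (hh l0 x))
        · intro x
          have := hh_pos hq l0 x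
          simpa using this
        · intro x; exact ENNReal.ofReal_ne_top
        · intro x
          have h1 := super hq hRpos l0 x
          have h2 : (∑ o, ENNReal.ofReal (hh l0 (nbr x o))) = ENNReal.ofReal
              (∑ o, hh l0 (nbr x o)) :=
            (ENNReal.ofReal_sum_of_nonneg (fun o _ => (hh_pos hq l0 _).le)).symm
          rw [h2]
          have h3 : (((q + 1 : ℕ)) : ℝ≥0∞) = ENNReal.ofReal ((q : ℝ) + 1) := by
            rw [ENNReal.ofReal_add (by positivity) zero_le_one]
            simp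
          rw [h3, ← ENNReal.ofReal_div_of_pos (by positivity), ← ENNReal.ofReal_mul (by positivity)]
          apply ENNReal.ofReal_le_ofReal
          rw [div_le_iff₀ (by positivity)]
          refine h1.trans (le_of_eq ?_)
          field_simp
      refine hkey.trans (ENNReal.ofReal_le_ofReal ?_)
      rw [hq1]
      push_cast
      have h4 : √(q : ℝ) / (2 * (q : ℝ) ^ R) ≤ √(q : ℝ) * (q * r) := by
        rw [div_le_iff₀ (by positivity)]
        rw [pow_succ] at hR1
        have : 1 ≤ (q : ℝ) * r * (2 * (q : ℝ) ^ R) := by linarith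
        nlinarith
      have h5 : √(q : ℝ) ≤ q + 1 := by nlinarith
      have h6 : √(q : ℝ) * (q * r) / (q + 1) ≤ 2 * q * r := by
        rw [div_le_iff₀ (by positivity)]
        have h7 : 0 ≤ (q : ℝ) * r := by positivity
        nlinarith
      calc (2 * √(q : ℝ) + √(q : ℝ) / (2 * (q : ℝ) ^ R)) / (q + 1)
          ≤ (2 * √(q : ℝ) + √(q : ℝ) * (q * r)) / (q + 1) := by
            apply div_le_div_of_nonneg_right _ (by positivity)
            linarith
        _ = 2 * √(q : ℝ) / (q + 1) + √(q : ℝ) * (q * r) / (q + 1) := by ring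
        _ ≤ _ := by linarith

end Pool.Agent.Results.MP_74bc7f_pr.LinearLoopDensity
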